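import Pool.Agent.V11316.Odd3

set_option autoImplicit false

/-!
# `S_{d,n}(q)` modulo `Φ_n(q)³` and `Φ_n(q)⁴`

We work in the field `ℚ(q) = RatFunc ℚ`.
-/

namespace Pool.Agent.Results.MP_dcacaa_nt.HigherPowers

open Polynomial Finset

noncomputable section

/-- the indeterminate `q` -/
def q : RatFunc ℚ := RatFunc.X

/-- the `q`-integer `[m] = (1 - q^m)/(1 - q)` of an integer `m` -/
def qint (m : ℤ) : RatFunc ℚ := (1 - q ^ m) / (1 - q)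

/-- the `q`-shifted factorial `(a;p)_k = ∏_{i<k} (1 - a p^i)` -/
def poch (a p : RatFunc ℚ) (k : ℕ) : RatFunc ℚ := ∏ i ∈ range k, (1 - a * p ^ i)

/-- `S_{d,n}(q) = ∑_{0 ≤ k ≤ n-1} q^{d(d-1)k/2} [2dk-1] ((q^{-1};q^d)_k/(q^d;q^d)_k)^d` -/
def S (d n : ℕ) : RatFunc ℚ :=
  ∑ k ∈ range n, q ^ (d * (d - 1) / 2 * k) * qint (2 * (d : ℤ) * k - 1) *
    (poch q⁻¹ (q ^ d) k / poch (q ^ d) (q ^ d) k) ^ d

/-- an integer polynomial in `q`, seen in `ℚ(q)` -/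
def toRat (f : ℤ[X]) : RatFunc ℚ :=
  algebraMap ℚ[X] (RatFunc ℚ) (f.map (Int.castRingHom ℚ))

/-- `x ≡ 0 (mod Φ_n(q)^m)`: `x = A/B` with `A, B ∈ ℤ[q]`, `Φ_n(q)^m ∣ A` and `Φ_n ∤ B`
(equivalently, as `Φ_n` is irreducible, `gcd(B, Φ_n) = 1`). -/
def CongZero (n m : ℕ) (x : RatFunc ℚ) : Prop :=
  ∃ A B : ℤ[X], ¬ cyclotomic n ℤ ∣ B ∧ cyclotomic n ℤ ^ m ∣ A ∧ x * toRat B = toRat A

theorem result (d n : ℕ) (hd : Odd d) (hd5 : 5 ≤ d) (hn : 1 < n) :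
    ((n : ℤ) ≡ 1 [ZMOD d] → CongZero n 3 (S d n)) ∧
    (2 * (n : ℤ) ≡ 1 [ZMOD d] → CongZero n 4 (S d n)) := by
  obtain ⟨e, rfl⟩ : ∃ e, d = 2 * e + 5 := by
    obtain ⟨t, rfl⟩ := hd
    exact ⟨t - 2, by omega⟩
  have h3 : S (2 * e + 5) n = ∑ k ∈ range n,
      V11307.Q.q ^ ((2 * e + 5) * (e + 2) * k) *
      ((1 - V11307.Q.q ^ (2 * ((2 * e + 5 : ℕ) : ℤ) * (k : ℤ) - 1)) / (1 - V11307.Q.q)) *
      ((∏ i ∈ range k, (1 - (V11307.Q.q)⁻¹ * (V11307.Q.q ^ (2 * e + 5)) ^ i)) /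
        (∏ i ∈ range k, (1 - V11307.Q.q ^ (2 * e + 5) * (V11307.Q.q ^ (2 * e + 5)) ^ i)))
          ^ (2 * e + 5) := by
    unfold S
    refine sum_congr rfl fun k _ => ?_
    rw [show (2 * e + 5) * (2 * e + 5 - 1) / 2 = (2 * e + 5) * (e + 2) by
      rw [show 2 * e + 5 - 1 = (e + 2) * 2 by omega, ← mul_assoc]
      exact Nat.mul_div_cancel _ two_pos]
    rfl
  rw [h3]
  have key : ∀ s : ℕ, V11307.Q.I n s (V11316.sumS n (2 * e + 5) (-1)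
      (((2 * e + 5) * (e + 2) : ℕ) : ℤ)) → CongZero n s (∑ k ∈ range n,
      V11307.Q.q ^ ((2 * e + 5) * (e + 2) * k) *
      ((1 - V11307.Q.q ^ (2 * ((2 * e + 5 : ℕ) : ℤ) * (k : ℤ) - 1)) / (1 - V11307.Q.q)) *
      ((∏ i ∈ range k, (1 - (V11307.Q.q)⁻¹ * (V11307.Q.q ^ (2 * e + 5)) ^ i)) /
        (∏ i ∈ range k, (1 - V11307.Q.q ^ (2 * e + 5) * (V11307.Q.q ^ (2 * e + 5)) ^ i)))
          ^ (2 * e + 5)) := by
    intro s h1
    have h2 := V11316.minus_sum hn h1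
    obtain ⟨A, B, hB, hA, h⟩ := V11316.I.int (by omega : 0 < n) h2
    exact ⟨A, B, hB, hA, h⟩
  constructor
  · intro h
    obtain ⟨g, hg⟩ := h.symm.dvd
    have hg0 : 0 < g := by
      by_contra h0
      have : ((2 * e + 5 : ℕ) : ℤ) * g ≤ 0 :=
        mul_nonpos_of_nonneg_of_nonpos (by positivity) (by omega)
      omega
    obtain ⟨h', rfl⟩ := Int.eq_ofNat_of_zero_le hg0.le
    exact key 3 (V11316.cong1 (e := e) (n := n) (h := h') (α := -1) (Or.inr rfl) hn (by linarith)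
      (by push_cast; ring))
  · intro h
    obtain ⟨g, hg⟩ := h.symm.dvd
    have hg0 : 0 < g := by
      by_contra h0
      have : ((2 * e + 5 : ℕ) : ℤ) * g ≤ 0 :=
        mul_nonpos_of_nonneg_of_nonpos (by positivity) (by omega)
      omega
    obtain ⟨h', rfl⟩ := Int.eq_ofNat_of_zero_le hg0.le
    exact key 4 (V11316.cong2 (e := e) (n := n) (g := h') (α := -1) (Or.inr rfl) hn (by linarith)
      (by push_cast; ring))

end

end Pool.Agent.Results.MP_dcacaa_nt.HigherPowers
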